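import Mathlib

/-!
# The cubic-dimension spectral sequence of the Vietoris–Rips complexes of hypercubes

Definitions only: the first page `E¹_{p,q}(n,r)`.
-/

open Finset

namespace Pool.Agent.Helper74.CubicSS

/-- `Δ` is a simplex of the Vietoris–Rips complex `X^{n,r}` of the vertex set `{0,1}^n` at scale
`r` for the Hamming distance: a nonempty set of vertices at pairwise Hamming distance `≤ r`. -/
def IsSimplex (n r : ℕ) (Δ : Finset (Fin n → Bool)) : Prop :=
  Δ.Nonempty ∧ ∀ x ∈ Δ, ∀ y ∈ Δ, hammingDist x y ≤ r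

/-- The cubic dimension of `Δ`: the number of coordinates on which the vertices of `Δ` do not all
agree. -/
def cubicDim {n : ℕ} (Δ : Finset (Fin n → Bool)) : ℕ :=
  (univ.filter fun j : Fin n => ∃ x ∈ Δ, ∃ y ∈ Δ, x j ≠ y j).card

/-- `Δ` is a basis element of `E⁰_{p,q}(n,r)`: a `(p+q)`-simplex of `X^{n,r}` (that is, a simplex
with `p+q+1` vertices) of cubic dimension exactly `p`. -/
def IsCell (n r : ℕ) (p q : ℤ) (Δ : Finset (Fin n → Bool)) : Prop :=
  IsSimplex n r Δ ∧ (Δ.card : ℤ) = p + q + 1 ∧ (cubicDim Δ : ℤ) = p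

/-- The basis of `E⁰_{p,q}(n,r)`. -/
abbrev Cell (n r : ℕ) (p q : ℤ) : Type :=
  {Δ : Finset (Fin n → Bool) // IsCell n r p q Δ}

/-- The term `E⁰_{p,q}(n,r)` with coefficients in `k`: the free `k`-module on the finite set of
`(p+q)`-simplices of cubic dimension exactly `p`. The function `z` stands for the chain
`∑ z(Δ) Δ`. -/
abbrev E0 (k : Type*) [CommRing k] (n r : ℕ) (p q : ℤ) : Type _ :=
  Cell n r p q → k

open Classical in
/-- The coefficient of `Γ` in the simplicial boundary of `Δ`, vertices being ordered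
lexicographically: `(-1)^i` if `Γ` is `Δ` with its `i`-th vertex (counting from `0`) deleted, and
`0` if `Γ` is not obtained from `Δ` by deleting a vertex. -/
noncomputable def incidence (k : Type*) [CommRing k] {n : ℕ} (Δ Γ : Finset (Fin n → Bool)) : k :=
  ∑ v ∈ Δ, if Δ.erase v = Γ then (-1) ^ (Δ.filter fun w => toLex w < toLex v).card else 0

open Classical in
/-- The differential `d⁰ : E⁰_{p,q} → E⁰_{p,q'}`, to be used with `q' = q - 1`: it is the linear
map sending the basis element `Δ` to its simplicial boundary `∑_Γ [Δ : Γ] Γ`, in which only the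
faces `Γ` of cubic dimension exactly `p` are kept. -/
noncomputable def d0 (k : Type*) [CommRing k] (n r : ℕ) (p q q' : ℤ) :
    E0 k n r p q →ₗ[k] E0 k n r p q' :=
  Fintype.linearCombination k
    (fun Δ : Cell n r p q => fun Γ : Cell n r p q' => incidence k Δ.1 Γ.1)

/-- The term `E¹_{p,q}(n,r)`: the homology at `E⁰_{p,q}` of
`E⁰_{p,q+1} → E⁰_{p,q} → E⁰_{p,q-1}`. -/
abbrev E1 (k : Type*) [CommRing k] (n r : ℕ) (p q : ℤ) : Type _ :=
  LinearMap.ker (d0 k n r p q (q - 1)) ⧸
    (LinearMap.range (d0 k n r p (q + 1) q)).submoduleOf (LinearMap.ker (d0 k n r p q (q - 1)))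

end Pool.Agent.Helper74.CubicSS
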