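import Mathlib
import Pool.Agent.Helper74.Toggle
import Pool.Agent.Helper74.Center
import Pool.Agent.Helper74.CubicSS.Defs

open Finset

namespace Pool.Agent.Helper74.CubicSS

/-- The explicit bound `s(r) = (r+1) + (r+1)^2 + ... + (r+1)^r`. -/
def s (r : ℕ) : ℕ := ∑ i ∈ Finset.Icc 1 r, (r + 1) ^ i

/-! ### Combinatorics -/

open Pool.Agent.Helper74

lemma cubicDim_mono {n : ℕ} {σ τ : Finset (Fin n → Bool)} (h : σ ⊆ τ) :
    cubicDim σ ≤ cubicDim τ := by
  apply Finset.card_le_card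
  intro j hj
  simp only [Finset.mem_filter, Finset.mem_univ, true_and] at hj ⊢
  obtain ⟨x, hx, y, hy, hxy⟩ := hj
  exact ⟨x, h hx, y, h hy, hxy⟩

lemma cubicDim_cl {n : ℕ} {m : ℕ} (hm : 1 ≤ m) (σ : Finset (Fin n → Bool)) :
    cubicDim (Center.cl m σ) = cubicDim σ := by
  apply le_antisymm _ (cubicDim_mono (Center.subset_cl m σ))
  apply Finset.card_le_card
  intro j hj
  simp only [Finset.mem_filter, Finset.mem_univ, true_and] at hj ⊢
  obtain ⟨x, hx, y, hy, hxy⟩ := hj
  obtain ⟨x', hx', hx2⟩ := Center.cl_value hm hx j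
  obtain ⟨y', hy', hy2⟩ := Center.cl_value hm hy j
  exact ⟨x', hx', y', hy', by rw [hx2, hy2]; exact hxy⟩

open Classical in
/-- the non-centres of `N` -/
noncomputable def ext {n : ℕ} (m : ℕ) (N : Finset (Fin n → Bool)) : Finset (Fin n → Bool) :=
  N.filter (fun A => ¬ Center.IsCenter m N A)

lemma ext_cl_subset {n : ℕ} (m : ℕ) (σ : Finset (Fin n → Bool)) :
    ext m (Center.cl m σ) ⊆ σ := by
  intro A hA
  simp only [ext, Finset.mem_filter] at hA
  rcases Center.mem_cl.mp hA.1 with h | h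
  · exact h
  · exact absurd (h.mono (Center.subset_cl m σ)) hA.2

lemma mem_ext {n m : ℕ} {N : Finset (Fin n → Bool)} {A : Fin n → Bool} :
    A ∈ ext m N ↔ A ∈ N ∧ ¬ Center.IsCenter m N A := by
  classical
  simp [ext]

lemma ext_subset {n m : ℕ} {N : Finset (Fin n → Bool)} : ext m N ⊆ N := by
  intro A hA
  exact (mem_ext.mp hA).1

lemma cubicDim_ext {n r : ℕ} {m : ℕ} (hm : r + 1 ≤ m) (N : Finset (Fin n → Bool))
    (hN : ∀ x ∈ N, ∀ y ∈ N, hammingDist x y ≤ r) : cubicDim (ext m N) = cubicDim N := by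
  apply le_antisymm (cubicDim_mono ext_subset)
  apply Finset.card_le_card
  intro j hj
  simp only [Finset.mem_filter, Finset.mem_univ, true_and] at hj ⊢
  obtain ⟨x, hx, y, hy, hxy⟩ := hj
  obtain ⟨x', hx', hx1, hx2⟩ := Center.ext_value hm hN hx j
  obtain ⟨y', hy', hy1, hy2⟩ := Center.ext_value hm hN hy j
  exact ⟨x', mem_ext.mpr ⟨hx', hx1⟩, y', mem_ext.mpr ⟨hy', hy1⟩, by rw [hx2, hy2]; exact hxy⟩

lemma exists_center {n r : ℕ} {m : ℕ} (σ : Finset (Fin n → Bool))
    (hσ : ∀ x ∈ σ, ∀ y ∈ σ, hammingDist x y ≤ r)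
    (hbig : ∑ i ∈ Finset.Icc 1 r, m ^ i < cubicDim σ) : ∃ Y, Center.IsCenter m σ Y := by
  by_contra hne
  push Not at hne
  have hpos : 0 < cubicDim σ := by omega
  rw [cubicDim, Finset.card_pos] at hpos
  obtain ⟨j, hj⟩ := hpos
  simp only [Finset.mem_filter, Finset.mem_univ, true_and] at hj
  obtain ⟨Y, hY, -, -, -⟩ := hj
  have h1 := Center.tree m σ hne r Y
  have h2 : cubicDim σ ≤ (univ.filter fun i => ∃ A ∈ σ, hammingDist Y A ≤ r ∧ A i ≠ Y i).card := by
    apply Finset.card_le_card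
    intro i hi
    simp only [Finset.mem_filter, Finset.mem_univ, true_and] at hi ⊢
    obtain ⟨x, hx, y, hy, hxy⟩ := hi
    by_cases h : x i = Y i
    · exact ⟨y, hy, hσ Y hY y hy, fun h2 => hxy (by rw [h, h2])⟩
    · exact ⟨x, hx, hσ Y hY x hx, h⟩
  omega

open Classical in
/-- the toggle vertex -/
noncomputable def toggle {n : ℕ} (m : ℕ) (σ : Finset (Fin n → Bool)) : Fin n → Bool :=
  if h : ∃ Y, Center.IsCenter m (ext m (Center.cl m σ)) Y then Classical.choose h
  else fun _ => false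

/-- the family of simplices of cubic dimension `p` -/
def Fam (n r : ℕ) (p : ℤ) (σ : Finset (Fin n → Bool)) : Prop :=
  IsSimplex n r σ ∧ (cubicDim σ : ℤ) = p

lemma toggle_center {n r : ℕ} {p : ℤ} (hp : (s r : ℤ) < p) (σ : Finset (Fin n → Bool))
    (hσ : Fam n r p σ) : Center.IsCenter (r + 1) σ (toggle (r + 1) σ) := by
  have hex : ∃ Y, Center.IsCenter (r + 1) (ext (r + 1) (Center.cl (r + 1) σ)) Y := by
    apply exists_center (r := r)
    · intro x hx y hy
      exact hσ.1.2 x (ext_cl_subset _ _ hx) y (ext_cl_subset _ _ hy)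
    · rw [cubicDim_ext le_rfl _ (Center.cl_dist le_rfl hσ.1.2), cubicDim_cl (by omega)]
      have := hσ.2
      rw [← this] at hp
      exact_mod_cast hp
  rw [toggle, dif_pos hex]
  exact (Classical.choose_spec hex).mono (ext_cl_subset _ _)

lemma fam_conv {n r : ℕ} {p : ℤ} (ρ τ σ : Finset (Fin n → Bool)) (h1 : ρ ⊆ τ) (h2 : τ ⊆ σ)
    (hρ : Fam n r p ρ) (hσ : Fam n r p σ) : Fam n r p τ := by
  refine ⟨⟨hρ.1.1.mono h1, fun x hx y hy => hσ.1.2 x (h2 hx) y (h2 hy)⟩, ?_⟩
  have h3 := cubicDim_mono h1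
  have h4 := cubicDim_mono h2
  have h5 := hρ.2
  have h6 := hσ.2
  omega

lemma fam_cl {n r : ℕ} {p : ℤ} (σ : Finset (Fin n → Bool)) (hσ : Fam n r p σ) :
    Fam n r p (Center.cl (r + 1) σ) := by
  refine ⟨⟨hσ.1.1.mono (Center.subset_cl _ _), Center.cl_dist le_rfl hσ.1.2⟩, ?_⟩
  rw [cubicDim_cl (by omega)]
  exact hσ.2

lemma fam_insert {n r : ℕ} {p : ℤ} (hp : (s r : ℤ) < p) (σ : Finset (Fin n → Bool))
    (hσ : Fam n r p σ) : Fam n r p (insert (toggle (r + 1) σ) σ) ∧
      Center.cl (r + 1) (insert (toggle (r + 1) σ) σ) = Center.cl (r + 1) σ := by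
  have hc := toggle_center hp σ hσ
  have hsub : insert (toggle (r + 1) σ) σ ⊆ Center.cl (r + 1) σ := by
    rw [Finset.insert_subset_iff]
    exact ⟨Center.mem_cl.mpr (Or.inr hc), Center.subset_cl _ _⟩
  refine ⟨fam_conv _ _ _ (Finset.subset_insert _ _) hsub hσ (fam_cl σ hσ), ?_⟩
  apply Finset.Subset.antisymm
  · have := Center.cl_mono (m := r + 1) hsub
    rwa [Center.cl_cl] at this
  · exact Center.cl_mono (Finset.subset_insert _ _)

lemma fam_erase {n r : ℕ} {p : ℤ} (hp : (s r : ℤ) < p) (σ : Finset (Fin n → Bool))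
    (hσ : Fam n r p σ) : Fam n r p (σ.erase (toggle (r + 1) σ)) ∧
      Center.cl (r + 1) (σ.erase (toggle (r + 1) σ)) = Center.cl (r + 1) σ := by
  have hc := (toggle_center hp σ hσ).erase
  have hsub : σ ⊆ Center.cl (r + 1) (σ.erase (toggle (r + 1) σ)) := by
    intro x hx
    by_cases h : x = toggle (r + 1) σ
    · rw [h]; exact Center.mem_cl.mpr (Or.inr hc)
    · exact Center.subset_cl _ _ (Finset.mem_erase.mpr ⟨h, hx⟩)
  have hcl : Center.cl (r + 1) (σ.erase (toggle (r + 1) σ)) = Center.cl (r + 1) σ := by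
    apply Finset.Subset.antisymm
    · exact Center.cl_mono (Finset.erase_subset _ _)
    · have := Center.cl_mono (m := r + 1) hsub
      rwa [Center.cl_cl] at this
  refine ⟨⟨⟨?_, ?_⟩, ?_⟩, hcl⟩
  · obtain ⟨A, hA, -⟩ := hc ∅ (by simp)
    exact ⟨A, hA⟩
  · intro x hx y hy
    exact hσ.1.2 x (Finset.mem_of_mem_erase hx) y (Finset.mem_of_mem_erase hy)
  · rw [← cubicDim_cl (m := r + 1) (by omega), hcl, cubicDim_cl (by omega)]
    exact hσ.2

/-! ### Transfer to `E¹` -/

open Classical in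
/-- extension of a chain by zero -/
noncomputable def extend {k : Type*} [CommRing k] {n r : ℕ} {p q : ℤ} (z : E0 k n r p q)
    (σ : Finset (Fin n → Bool)) : k :=
  if h : IsCell n r p q σ then z ⟨σ, h⟩ else 0

lemma sum_cell {k : Type*} [CommRing k] {n r : ℕ} {p q : ℤ} (z : E0 k n r p q)
    [Fintype (Cell n r p q)] (g : Finset (Fin n → Bool) → k) :
    ∑ Δ : Cell n r p q, z Δ * g Δ.1 = ∑ σ : Finset (Fin n → Bool), extend z σ * g σ := by
  classical
  rw [← Finset.sum_filter_add_sum_filter_not univ (fun σ => IsCell n r p q σ)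
    (fun σ => extend z σ * g σ)]
  have h2 : ∑ σ ∈ univ.filter (fun σ => ¬ IsCell n r p q σ), extend z σ * g σ = 0 := by
    apply Finset.sum_eq_zero
    intro σ hσ
    simp only [Finset.mem_filter, Finset.mem_univ, true_and] at hσ
    rw [extend, dif_neg hσ, zero_mul]
  rw [h2, add_zero]
  refine Finset.sum_bij' (fun Δ _ => Δ.1)
    (fun σ hσ => (⟨σ, by simpa using hσ⟩ : Cell n r p q)) ?_ ?_ ?_ ?_ ?_
  · intro Δ _; simpa using Δ.2
  · intro σ hσ; exact Finset.mem_univ _
  · intro Δ _; rfl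
  · intro σ hσ; rfl
  · intro Δ _
    rw [extend, dif_pos Δ.2]

lemma sum_incidence {k : Type*} [CommRing k] {n : ℕ} (f : Finset (Fin n → Bool) → k)
    (Γ : Finset (Fin n → Bool)) :
    ∑ σ : Finset (Fin n → Bool), f σ * incidence k σ Γ =
      ∑ v ∈ univ.filter (fun v => v ∉ Γ),
        Toggle.sgn k (fun w : Fin n → Bool => toLex w) Γ v * f (insert v Γ) := by
  classical
  have h1 : ∀ σ : Finset (Fin n → Bool), f σ * incidence k σ Γ =
      ∑ v : Fin n → Bool, if v ∉ Γ ∧ σ = insert v Γ then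
        Toggle.sgn k (fun w : Fin n → Bool => toLex w) Γ v * f (insert v Γ) else 0 := by
    intro σ
    rw [incidence, Finset.mul_sum, ← Finset.sum_filter_add_sum_filter_not univ (fun v => v ∈ σ)]
    have h2 : ∑ v ∈ univ.filter (fun v => v ∉ σ), (if v ∉ Γ ∧ σ = insert v Γ then
        Toggle.sgn k (fun w : Fin n → Bool => toLex w) Γ v * f (insert v Γ) else 0) = 0 := by
      apply Finset.sum_eq_zero
      intro v hv
      simp only [Finset.mem_filter, Finset.mem_univ, true_and] at hv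
      rw [if_neg]
      rintro ⟨-, h⟩
      exact hv (by rw [h]; simp)
    rw [h2, add_zero]
    have h3 : univ.filter (fun v => v ∈ σ) = σ := by ext; simp
    rw [h3]
    apply Finset.sum_congr rfl
    intro v hv
    by_cases h : σ.erase v = Γ
    · have hvΓ : v ∉ Γ := by rw [← h]; simp
      have hσ : σ = insert v Γ := by rw [← h, Finset.insert_erase hv]
      have hfil : (σ.filter fun w => toLex w < toLex v) =
          (Γ.filter fun w => toLex w < toLex v) := by
        ext w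
        simp only [Finset.mem_filter]
        rw [hσ]
        simp only [Finset.mem_insert]
        constructor
        · rintro ⟨h5 | h5, h6⟩
          · rw [h5] at h6; exact absurd h6 (lt_irrefl _)
          · exact ⟨h5, h6⟩
        · rintro ⟨h5, h6⟩; exact ⟨Or.inr h5, h6⟩
      rw [if_pos h, if_pos ⟨hvΓ, hσ⟩, Toggle.sgn, mul_comm, ← hσ]
      congr 2
      convert congrArg Finset.card hfil
      rfl
    · rw [if_neg h, if_neg, mul_zero]
      rintro ⟨h5, h6⟩
      apply h
      rw [h6, Finset.erase_insert h5]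
  simp_rw [h1]
  rw [Finset.sum_comm, Finset.sum_filter]
  apply Finset.sum_congr rfl
  intro v _
  by_cases hv : v ∉ Γ
  · simp [hv]
  · simp [hv]

lemma d0_apply {k : Type*} [CommRing k] {n r : ℕ} {p q q' : ℤ}
    (z : E0 k n r p q) (Γ : Cell n r p q') :
    d0 k n r p q q' z Γ =
      Toggle.bd (fun w : Fin n → Bool => toLex w) (Fam n r p) (extend z) Γ.1 := by
  classical
  have hF : Fam n r p Γ.1 := ⟨Γ.2.1, Γ.2.2.2⟩
  rw [Toggle.bd, if_pos hF, ← sum_incidence, d0, Fintype.linearCombination_apply,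
    Finset.sum_apply]
  rw [← sum_cell z (fun σ => incidence k σ Γ.1)]
  rfl

lemma extend_supp {k : Type*} [CommRing k] {n r : ℕ} {p q : ℤ} (z : E0 k n r p q)
    (σ : Finset (Fin n → Bool)) (h : extend z σ ≠ 0) : IsCell n r p q σ := by
  by_contra hc
  exact h (by rw [extend, dif_neg hc])

/-- sanity check, not used below: `d⁰ ∘ d⁰ = 0`, so that `E¹` is indeed a homology module -/
theorem d0_comp_d0 {k : Type*} [CommRing k] {n r : ℕ} {p q : ℤ} (z : E0 k n r p (q + 1)) :
    d0 k n r p q (q - 1) (d0 k n r p (q + 1) q z) = 0 := by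
  classical
  have hext : extend (d0 k n r p (q + 1) q z) =
      Toggle.bd (fun w : Fin n → Bool => toLex w) (Fam n r p) (extend z) := by
    funext σ
    by_cases hσ : IsCell n r p q σ
    · rw [extend, dif_pos hσ, d0_apply]
    · rw [extend, dif_neg hσ]
      by_contra hne
      have h1 := Toggle.bd_supp _ _ _ _ (fun h => hne h.symm)
      have h2 := Toggle.bd_card _ _ _ (p + q + 1)
        (fun σ h => by rw [(extend_supp z σ h).2.1]; ring) σ (fun h => hne h.symm)
      exact hσ ⟨h1.1, h2, h1.2⟩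
  funext Γ
  rw [d0_apply, hext, Toggle.bd_bd (fun w : Fin n → Bool => toLex w)
    (fun x y h => toLex.injective h) (Fam n r p) fam_conv (extend z)
    (fun σ h => ⟨(extend_supp z σ h).1, (extend_supp z σ h).2.2⟩)]
  rfl

/-- **Vanishing of late columns**: `E¹_{p,q}(n,r) = 0` as soon as `p > s r`. -/
theorem main (r : ℕ) (k : Type*) [CommRing k] (n : ℕ) (p q : ℤ) (hp : (s r : ℤ) < p) :
    Subsingleton (E1 k n r p q) := by
  classical
  rw [Submodule.Quotient.subsingleton_iff, Submodule.submoduleOf, Submodule.eq_top_iff']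
  rintro ⟨z, hz⟩
  rw [LinearMap.mem_ker] at hz
  simp only [Submodule.mem_comap, Submodule.coe_subtype, LinearMap.mem_range]
  obtain ⟨b, hb, hb2⟩ := Toggle.acyclic (K := k) (fun w : Fin n → Bool => toLex w)
    (fun x y h => toLex.injective h) (Fam n r p) fam_conv (Center.cl (r + 1)) (toggle (r + 1))
    (fun σ _ => Center.subset_cl _ σ) (fun σ τ _ _ h => Center.cl_mono h)
    (fun σ τ _ _ h => by rw [toggle, toggle, h]) (fam_insert hp) (fam_erase hp) (p + q + 1)
    (Fintype.card (Fin n → Bool)) (extend z)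
    (fun σ h => ⟨⟨(extend_supp z σ h).1, (extend_supp z σ h).2.2⟩, Finset.card_le_univ _,
      (extend_supp z σ h).2.1⟩)
    (by
      funext τ
      by_cases hτ : IsCell n r p (q - 1) τ
      · rw [← d0_apply z ⟨τ, hτ⟩, hz]; rfl
      · by_contra hne
        have h1 := Toggle.bd_supp _ _ _ _ hne
        have h2 := Toggle.bd_card _ _ _ (p + q) (fun σ h => (extend_supp z σ h).2.1) τ hne
        exact hτ ⟨h1.1, by rw [h2]; ring, h1.2⟩)
  refine ⟨fun Δ => b Δ.1, ?_⟩
  have hext : extend (fun Δ : Cell n r p (q + 1) => b Δ.1) = b := by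
    funext σ
    by_cases hσ : IsCell n r p (q + 1) σ
    · rw [extend, dif_pos hσ]
    · rw [extend, dif_neg hσ]
      by_contra hne
      have h1 := hb σ (fun h => hne h.symm)
      exact hσ ⟨h1.1.1, by rw [h1.2]; ring, h1.1.2⟩
  funext Γ
  rw [d0_apply, hext, hb2, extend, dif_pos Γ.2]

end Pool.Agent.Helper74.CubicSS
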